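import Pool.Agent.L7h74.HS.StmD

/-! Project HS: assembly -/

set_option autoImplicit false

namespace Pool.Agent.L7h74.HS

open CategoryTheory Opposite Limits MonoidalCategory

/-- the point -/
noncomputable abbrev D0 : SSet.{0} := SSet.stdSimplex.obj (SimplexCategory.mk 0)

instance sub_hom0 (m : SimplexCategory) : Subsingleton (m ⟶ SimplexCategory.mk 0) :=
  ⟨fun f g => by
    ext i
    exact congrArg Fin.val (Subsingleton.elim (α := Fin 1) _ _)⟩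

theorem D0_sub (m : SimplexCategoryᵒᵖ) : Subsingleton (D0.obj m) :=
  (SSet.stdSimplex.objEquiv (n := SimplexCategory.mk 0) (m := m)).subsingleton

theorem D0_conn : D0.IsConnected := by
  have : Subsingleton (Sx D0 0) := D0_sub _
  have : Subsingleton D0.π₀ := by
    refine ⟨fun x y => ?_⟩
    obtain ⟨x, rfl⟩ := SSet.π₀.mk_surjective x
    obtain ⟨y, rfl⟩ := SSet.π₀.mk_surjective y
    exact congrArg _ (Subsingleton.elim (α := Sx D0 0) x y)
  rw [SSet.isConnected_iff]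
  refine ⟨inferInstance, ?_⟩
  rw [← SSet.π₀.nonempty_iff]
  exact ⟨SSet.π₀.mk (SSet.stdSimplex.objEquiv.symm (𝟙 _))⟩

/-- the map to `X ^ 0` -/
def pt0 (X Z : SSet.{0}) : Z ⟶ pw X 0 where
  app m := ↾ fun _ i => i.elim0
  naturality m m' f := by
    ext z
    funext i
    exact i.elim0

theorem pw0_sub (X : SSet.{0}) (m : SimplexCategoryᵒᵖ) : Subsingleton ((pw X 0).obj m) :=
  ⟨fun a b => funext fun i : Fin 0 => i.elim0⟩

theorem hom_pw0 {X Z : SSet.{0}} (a b : Z ⟶ pw X 0) : a = b := by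
  ext m z
  exact (pw0_sub X m).elim _ _

theorem nonempty_iff {X : SSet.{0}} (E : Over (pw X 0)) :
    Nonempty (Sx E.left 0) ↔ Nonempty (Over.mk (pt0 X D0) ⟶ E) := by
  constructor
  · rintro ⟨x⟩
    exact ⟨Over.homMk (SSet.yonedaEquiv.symm x) (hom_pw0 _ _)⟩
  · rintro ⟨h⟩
    exact ⟨h.left.app _ (SSet.stdSimplex.objEquiv.symm (𝟙 _))⟩

theorem holds_iff (hKJ : S_KJ) (hE : S_EXI) (X : SSet.{0}) (φ : Form 0) :
    Holds X φ ↔ Forces X φ D0 (pt0 X D0) := by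
  constructor
  · rintro ⟨E, hI, hn⟩
    exact (hKJ X φ E hI D0 D0_conn _).1 ((nonempty_iff E).1 hn)
  · intro h
    obtain ⟨E, hI⟩ := hE X φ
    exact ⟨E, hI, (nonempty_iff E).2 ((hKJ X φ E hI D0 D0_conn _).2 h)⟩

theorem rel0 {Z : SSet.{0}} {k : ℕ} (a : Fin 0 → (Sx Z (k + 1) → ZMod 2)) :
    Rel a = Set.univ := by
  ext S
  simp only [Set.mem_univ, iff_true]
  have hS : S = ∅ := Finset.eq_empty_of_isEmpty S
  subst hS
  refine ⟨by simp, 0, ?_⟩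
  funext z
  simp [dl]

theorem same (hBIS : S_BIS) (k k' : ℕ) (hk : k ≤ 1) (hk' : k' ≤ 1) (φ : Form 0)
    (a : Fin 0 → (Sx D0 (k + 1) → ZMod 2)) (a' : Fin 0 → (Sx D0 (k' + 1) → ZMod 2))
    (h : CForces k φ D0 a) : CForces k' φ D0 a' :=
  hBIS k k' hk hk' φ D0 D0_conn a (fun i => i.elim0) D0 D0_conn a' (fun i => i.elim0)
    (by rw [rel0, rel0]) h

/-- spaces of type `K(F₂, 1)` and `K(F₂, 2)` satisfy the same sentences -/
theorem same_holds (hKJ : S_KJ) (hE : S_EXI) (hF : S_FOR) (hBIS : S_BIS) (k k' : ℕ) (hk : k ≤ 1)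
    (hk' : k' ≤ 1) (X X' : SSet.{0}) (p : X ⟶ KK k) (p' : X' ⟶ KK k') (hp : TrivFib p)
    (hp' : TrivFib p') (φ : Form 0) (h : Holds X φ) : Holds X' φ := by
  rw [holds_iff hKJ hE] at h ⊢
  rw [hF k hk X p hp] at h
  rw [hF k' hk' X' p' hp']
  exact same hBIS k k' hk hk' φ _ _ h

theorem main (hKJ : S_KJ) (hE : S_EXI) (hF : S_FOR) (hBIS : S_BIS) (hT : S_TOP) (h0 : S_SC0)
    (h1 : S_SC1) :
    ¬ ∃ φ : Form 0, ∀ (X : Type) [TopologicalSpace X], Holds (Sg X) φ ↔ SimplyConnectedSpace X := by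
  rintro ⟨φ, hφ⟩
  obtain ⟨X, i, p, hp⟩ := hT 0 (by norm_num)
  obtain ⟨Y, j, q, hq⟩ := hT 1 le_rfl
  have hY : Holds (Sg Y) φ := (hφ Y).2 (h1 Y q hq)
  have hX : Holds (Sg X) φ :=
    same_holds hKJ hE hF hBIS 1 0 le_rfl (by norm_num) (Sg Y) (Sg X) q p hq hp φ hY
  exact h0 X p hp ((hφ X).1 hX)

theorem top_of (hS : S_STP) (hC : S_COL) (hB : S_BND) : S_TOP := by
  intro k hk
  obtain ⟨X, i, hn, u, hu, h⟩ := hC hS k hk
  obtain ⟨p, hp⟩ := hB k hk X u hu h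
  exact ⟨X, i, p, hp⟩

end Pool.Agent.L7h74.HS
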