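import Pool.Agent.L7h74.HS.StmD
import Pool.Agent.H904R2.Sphere

/-!
# Project HS: relative acyclicity of an attachment of many cells

Adapted from `Pool/Agent/H904R2/Skel.lean` (helper498).
-/

set_option autoImplicit false
set_option linter.unusedSectionVars false

namespace Pool.Agent.L7h74.HS

open Finsupp Topology
open Pool.Agent.Helper922.HB.Sc (Sing sface sbd supported_map single_mem_supported' sbd_sbd
  range_sface)
open Pool.Agent.H904R2 (Ch psh cellSet cell_acyc)
open Pool.Agent.H904R2.Sph (sup exists_lift psh_inc_mem psh_single sbd_single sbd_psh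
  sbd_mem_sup sup_mono inc_injective liftS)

/-- boundary condition -/
def BCd {X : Type} [TopologicalSpace X] (A : ∀ m, Set (Sing X m)) : ∀ m, Ch X m → Prop
  | 0, _ => True
  | (m + 1), z => sbd X m z ∈ supported ℤ ℤ (A m)

theorem cell_acycd {X : Type} [TopologicalSpace X] [T2Space X] (Y : Set X) (hY : IsClosed Y)
    (n : ℕ) (Φ : Sing X n) (hcov : Y ∪ Set.range Φ = Set.univ)
    (hbd : ∀ t : stdSimplex ℝ (Fin (n + 1)), (∃ i, t.1 i = 0) → Φ t ∈ Y)
    (hint : ∀ t : stdSimplex ℝ (Fin (n + 1)), (∀ i, t.1 i ≠ 0) → Φ t ∉ Y)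
    (hinj : ∀ s t : stdSimplex ℝ (Fin (n + 1)), (∀ i, s.1 i ≠ 0) → (∀ i, t.1 i ≠ 0) →
      Φ s = Φ t → s = t) (m : ℕ) (z : Ch X m) (hz : BCd (cellSet Y Φ) m z) :
    ∃ y : Ch X (m + 1), z - sbd X m y ∈ supported ℤ ℤ (cellSet Y Φ m) := by
  obtain ⟨h1, h2⟩ := cell_acyc Y hY n Φ hcov hbd hint hinj
  cases m with
  | zero => exact h1 z
  | succ m => exact h2 m z hz

section

variable {X X' : Type} [TopologicalSpace X] [TopologicalSpace X'] [T2Space X'] {inc : C(X, X')}
  {J : Type} {m : ℕ} {f : J → C(Bd (m + 1), X)} {Φ : J → Sing X' (m + 1)}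

/-- `X` together with finitely many cells -/
def YF (inc : C(X, X')) (Φ : J → Sing X' (m + 1)) (F : Finset J) : Set X' :=
  Set.range inc ∪ ⋃ j ∈ F, Set.range (Φ j)

theorem YF_closed (h : Attached inc m f Φ) (F : Finset J) : IsClosed (YF inc Φ F) := by
  refine h.emb.isClosed_range.union ?_
  exact F.finite_toSet.isClosed_biUnion fun j _ => (isCompact_range (Φ j).continuous).isClosed

theorem YF_mem (F : Finset J) (j : J) (hj : j ∈ F) : Set.range (Φ j) ⊆ YF inc Φ F := by
  intro x hx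
  exact Or.inr (Set.mem_iUnion₂.mpr ⟨j, hj, hx⟩)

theorem bd_or {n : ℕ} (t : stdSimplex ℝ (Fin (n + 1))) : (∃ i, t.1 i = 0) ∨ ∀ i, t.1 i ≠ 0 := by
  by_cases h : ∃ i, t.1 i = 0
  · exact Or.inl h
  · exact Or.inr fun i hi => h ⟨i, hi⟩

theorem cell_bd (h : Attached inc m f Φ) (j : J) (t : stdSimplex ℝ (Fin (m + 2)))
    (ht : ∃ i, t.1 i = 0) : Φ j t ∈ Set.range inc :=
  ⟨f j ⟨t, ht⟩, (h.bd j ⟨t, ht⟩).symm⟩

theorem YF_disj (h : Attached inc m f Φ) (F : Finset J) (j : J) (hj : j ∉ F)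
    (t : stdSimplex ℝ (Fin (m + 2))) (ht : ∀ i, t.1 i ≠ 0) : Φ j t ∉ YF inc Φ F := by
  rintro (hx | hx)
  · exact h.int j t ht hx
  · obtain ⟨j', hj', t', ht'⟩ := Set.mem_iUnion₂.mp hx
    rcases bd_or t' with hb | hi
    · exact h.int j t ht (ht' ▸ cell_bd h j' t' hb)
    · exact hj ((h.inj j' j t' t hi ht ht').1 ▸ hj')

theorem finite_cells (h : Attached inc m f Φ) (K : Set X') (hK : IsCompact K) :
    {j : J | ∃ t : stdSimplex ℝ (Fin (m + 2)), (∀ i, t.1 i ≠ 0) ∧ Φ j t ∈ K}.Finite := by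
  classical
  set T := {j : J | ∃ t : stdSimplex ℝ (Fin (m + 2)), (∀ i, t.1 i ≠ 0) ∧ Φ j t ∈ K} with hT
  choose p hp using (fun e : T => e.2)
  set P : T → X' := fun e => Φ e.1 (p e) with hP
  have hPinj : Function.Injective P := by
    intro e e' hee
    exact Subtype.ext (h.inj _ _ _ _ (hp e).1 (hp e').1 hee).1
  have hclosed : ∀ B : Set T, IsClosed (P '' B) := by
    intro B
    apply h.coh
    · have h1 : (inc ⁻¹' (P '' B)) = ∅ := by
        rw [Set.eq_empty_iff_forall_notMem]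
        rintro x ⟨e, _, he⟩
        exact h.int e.1 (p e) (hp e).1 ⟨x, he.symm⟩
      rw [h1]
      exact isClosed_empty
    · intro j
      apply Set.Finite.isClosed
      apply Set.Subsingleton.finite
      have key : ∀ t, t ∈ (Φ j ⁻¹' (P '' B)) → ∃ hj : j ∈ T, t = p ⟨j, hj⟩ := by
        rintro t ⟨e, _, he⟩
        rcases bd_or t with hb | hi
        · have he' : Φ e.1 (p e) = Φ j t := he
          exact absurd (he'.symm ▸ cell_bd h j t hb) (h.int e.1 (p e) (hp e).1)
        · obtain ⟨h1, h2⟩ := h.inj _ _ _ _ (hp e).1 hi he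
          subst h1
          exact ⟨e.2, h2.symm⟩
      intro a ha b hb
      obtain ⟨_, rfl⟩ := key a ha
      obtain ⟨_, rfl⟩ := key b hb
      rfl
  have hcomp : IsCompact (Set.range P) := by
    refine hK.of_isClosed_subset ?_ ?_
    · have := hclosed Set.univ
      rwa [Set.image_univ] at this
    · rintro _ ⟨e, rfl⟩
      exact (hp e).2
  have hdisc : IsDiscrete (Set.range P) := by
    refine ⟨discreteTopology_iff_forall_isClosed.mpr fun U => ?_⟩
    have h1 : U = Subtype.val ⁻¹' (P '' {e | P e ∈ Subtype.val '' U}) := by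
      ext ⟨x, hx⟩
      constructor
      · intro hU
        obtain ⟨e, rfl⟩ := hx
        exact ⟨e, ⟨_, hU, rfl⟩, rfl⟩
      · rintro ⟨e, ⟨u, hu, hue⟩, hex⟩
        have : u = ⟨x, hx⟩ := Subtype.ext (hue.trans hex)
        rw [← this]
        exact hu
    rw [h1]
    exact (hclosed _).preimage continuous_subtype_val
  have hfin := hcomp.finite hdisc
  have : Finite T := by
    have := hfin.to_subtype
    exact Finite.of_injective (Set.rangeFactorization P)
      (fun a b h => hPinj (congrArg Subtype.val h))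
  exact Set.toFinite T

theorem exists_YF (h : Attached inc m f Φ) (K : Set X') (hK : IsCompact K) :
    ∃ F, K ⊆ YF inc Φ F := by
  refine ⟨(finite_cells h K hK).toFinset, ?_⟩
  intro x hx
  rcases h.cov x with hr | ⟨j, t, rfl⟩
  · exact Or.inl hr
  · rcases bd_or t with hb | hi
    · exact Or.inl (cell_bd h j t hb)
    · apply YF_mem _ j
      · rw [Set.Finite.mem_toFinset]
        exact ⟨t, hi, hx⟩
      · exact ⟨t, rfl⟩

theorem exists_YF_chain (h : Attached inc m f Φ) (q : ℕ) (z : Ch X' q) :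
    ∃ F, z ∈ sup (YF inc Φ F) q := by
  obtain ⟨F, hF⟩ := exists_YF h (⋃ σ ∈ z.support, Set.range σ)
    (z.support.finite_toSet.isCompact_biUnion fun σ _ => isCompact_range σ.continuous)
  refine ⟨F, ?_⟩
  rw [sup, Finsupp.mem_supported]
  intro σ hσ
  refine Set.Subset.trans ?_ hF
  exact Set.subset_biUnion_of_mem (u := fun σ : Sing X' q => Set.range σ) hσ

/-- the set of simplices relative to which `YF F` is acyclic -/
def cAF (inc : C(X, X')) (Φ : J → Sing X' (m + 1)) (F : Finset J) (q : ℕ) : Set (Sing X' q) :=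
  {σ | Set.range σ ⊆ Set.range inc ∨ ∃ j ∈ F, (⟨q, σ⟩ : Σ q, Sing X' q) = ⟨m + 1, Φ j⟩}

theorem cAF_sub (F : Finset J) (q : ℕ) : cAF inc Φ F q ⊆ cells inc Φ q := by
  rintro σ (h | ⟨e, _, h⟩)
  · exact Or.inl h
  · exact Or.inr ⟨e, h⟩

theorem sig_range {q n : ℕ} {σ : Sing X' q} {τ : Sing X' n}
    (h : (⟨q, σ⟩ : Σ q, Sing X' q) = ⟨n, τ⟩) : Set.range σ = Set.range τ := by
  obtain ⟨h1, h2⟩ := Sigma.mk.inj_iff.mp h
  subst h1
  rw [eq_of_heq h2]

theorem sig_face (h : Attached inc m f Φ) {q : ℕ} {σ : Sing X' (q + 1)} {j : J}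
    (hs : (⟨q + 1, σ⟩ : Σ q, Sing X' q) = ⟨m + 1, Φ j⟩) (i : Fin (q + 2)) :
    Set.range (sface q i σ) ⊆ Set.range inc := by
  obtain ⟨h1, h2⟩ := Sigma.mk.inj_iff.mp hs
  obtain rfl : q = m := by omega
  rw [eq_of_heq h2]
  rintro _ ⟨t, rfl⟩
  show Φ j (stdSimplex.map i.succAbove t) ∈ _
  apply cell_bd h
  refine ⟨i, ?_⟩
  change (FunOnFinite.linearMap ℝ ℝ i.succAbove t.1) i = 0
  rw [FunOnFinite.linearMap_apply_apply]
  apply Finset.sum_eq_zero
  intro j hj
  simp only [Finset.mem_filter] at hj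
  exact absurd hj.2 (Fin.succAbove_ne i j)

theorem cells_face (h : Attached inc m f Φ) (q : ℕ) (i : Fin (q + 2)) (σ : Sing X' (q + 1))
    (hσ : σ ∈ cells inc Φ (q + 1)) : sface q i σ ∈ cells inc Φ q := by
  rcases hσ with hσ | ⟨e, hσ⟩
  · exact Or.inl ((range_sface q i σ).trans hσ)
  · exact Or.inl (sig_face h hσ i)

theorem cells_bd (h : Attached inc m f Φ) (q : ℕ) (z : Ch X' (q + 1))
    (hz : z ∈ supported ℤ ℤ (cells inc Φ (q + 1))) :
    sbd X' q z ∈ supported ℤ ℤ (cells inc Φ q) := by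
  refine supported_map _ (sbd X' q) _ ?_ z hz
  intro σ hσ
  rw [sbd_single]
  apply Submodule.sum_mem
  intro i _
  apply Submodule.smul_mem
  exact single_mem_supported' (cells_face h q i σ hσ)

/-- a simplex of `cells` inside `YF F` belongs to `cAF F` -/
theorem cells_inter (h : Attached inc m f Φ) {q : ℕ} {F : Finset J}
    {σ : Sing X' q} (hσ : σ ∈ cells inc Φ q) (hr : Set.range σ ⊆ YF inc Φ F) :
    σ ∈ cAF inc Φ F q := by
  rcases hσ with hσ | ⟨j, hσ⟩
  · exact Or.inl hσ
  · refine Or.inr ⟨j, ?_, hσ⟩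
    by_contra hj
    have hb := Pool.Agent.H904R2.Cell.bc_mem_Di (m + 1)
    refine YF_disj h F j hj (Pool.Agent.H904R2.Cell.bc (m + 1)) hb (hr ?_)
    rw [sig_range hσ]
    exact ⟨_, rfl⟩

theorem supported_inter {α : Type} {s t : Set α} {z : α →₀ ℤ} (h1 : z ∈ supported ℤ ℤ s)
    (h2 : z ∈ supported ℤ ℤ t) : z ∈ supported ℤ ℤ (s ∩ t) := by
  rw [Finsupp.mem_supported] at *
  exact Set.subset_inter h1 h2

theorem lift_supported {O : Set X'} {q : ℕ} (A : Set (Sing X' q)) (w : Ch O q)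
    (h : psh (Pool.Agent.H904R2.Sph.inc O) q w ∈ supported ℤ ℤ A) :
    w ∈ supported ℤ ℤ {σ : Sing O q | (Pool.Agent.H904R2.Sph.inc O).comp σ ∈ A} := by
  classical
  rw [Finsupp.mem_supported] at *
  intro σ hσ
  apply h
  have hinj : Function.Injective
      (fun σ : Sing O q => (Pool.Agent.H904R2.Sph.inc O).comp σ) := by
    intro a b hab
    apply ContinuousMap.ext
    intro t
    exact inc_injective O (congrArg (fun f : Sing X' q => f t) hab)
  have h1 : (psh (Pool.Agent.H904R2.Sph.inc O) q w) =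
    Finsupp.mapDomain (fun σ : Sing O q => (Pool.Agent.H904R2.Sph.inc O).comp σ) w := rfl
  rw [h1, Finset.mem_coe, Finsupp.mapDomain_support_of_injective hinj, Finset.mem_image]
  exact ⟨σ, hσ, rfl⟩

theorem sig_lift {O : Set X'} {q k : ℕ} {σ : Sing O q} {τ : Sing X' k} (hτ : Set.range τ ⊆ O)
    (h : (⟨q, (Pool.Agent.H904R2.Sph.inc O).comp σ⟩ : Σ q, Sing X' q) = ⟨k, τ⟩) :
    (⟨q, σ⟩ : Σ q, Sing O q) = ⟨k, liftS τ hτ⟩ := by
  obtain ⟨h1, h2⟩ := Sigma.mk.inj_iff.mp h
  subst h1
  have h3 := eq_of_heq h2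
  refine Sigma.mk.inj_iff.mpr ⟨rfl, heq_of_eq ?_⟩
  apply ContinuousMap.ext
  intro t
  apply Subtype.ext
  exact congrArg (fun f : Sing X' q => f t) h3

theorem fin_step (h : Attached inc m f Φ) (F : Finset J) :
    ∀ (q : ℕ), ∀ z ∈ sup (YF inc Φ F) q, BCd (cAF inc Φ F) q z →
      ∃ y ∈ sup (YF inc Φ F) (q + 1), z - sbd X' q y ∈ supported ℤ ℤ (cAF inc Φ F q) := by
  classical
  induction F using Finset.induction_on with
  | empty =>
    intro q z hz _
    refine ⟨0, Submodule.zero_mem _, ?_⟩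
    rw [map_zero, sub_zero]
    refine Finsupp.supported_mono ?_ hz
    intro σ hσ
    left
    have : YF inc Φ ∅ = Set.range inc := by simp [YF]
    rw [← this]
    exact hσ
  | insert e F he ih =>
    intro q z hz hBC
    set Z : Set X' := YF inc Φ (insert e F) with hZ
    have hcell : Set.range (Φ e) ⊆ Z := YF_mem _ e (Finset.mem_insert_self e F)
    have hFZ : YF inc Φ F ⊆ Z := by
      refine Set.union_subset_union_right _ ?_
      intro x hx
      obtain ⟨e', he', hx'⟩ := Set.mem_iUnion₂.mp hx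
      exact Set.mem_iUnion₂.mpr ⟨e', Finset.mem_insert_of_mem he', hx'⟩
    let Y : Set Z := Subtype.val ⁻¹' (YF inc Φ F)
    have hY : IsClosed Y := (YF_closed h F).preimage continuous_subtype_val
    let Ψ : Sing Z (m + 1) := liftS (Φ e) hcell
    have key := cell_acycd (X := Z) Y hY (m + 1) Ψ (by
      ext ⟨x, hx⟩
      simp only [Set.mem_univ, iff_true]
      rcases hx with h | h
      · exact Or.inl (Or.inl h)
      · obtain ⟨e', he', hx'⟩ := Set.mem_iUnion₂.mp h
        rcases Finset.mem_insert.mp he' with rfl | h1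
        · right
          obtain ⟨t, ht⟩ := hx'
          exact ⟨t, Subtype.ext ht⟩
        · left
          exact YF_mem F e' h1 hx')
      (fun t ht => Or.inl (cell_bd h e t ht))
      (fun t ht hh => YF_disj h F e he t ht hh)
      (fun s t hs ht hh => (h.inj e e s t hs ht (congrArg Subtype.val hh)).2) q
    obtain ⟨z', hz'⟩ := exists_lift hz
    have hBC' : BCd (cellSet Y Ψ) q z' := by
      cases q with
      | zero => trivial
      | succ q =>
        show sbd Z q z' ∈ supported ℤ ℤ (cellSet Y Ψ q)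
        have h1 : psh (Pool.Agent.H904R2.Sph.inc Z) q (sbd Z q z') ∈
            supported ℤ ℤ (cAF inc Φ (insert e F) q) := by
          rw [← sbd_psh, hz']
          exact hBC
        refine Finsupp.supported_mono ?_ (lift_supported _ _ h1)
        rintro σ (h | ⟨e', he', h⟩)
        · left
          rintro _ ⟨t, rfl⟩
          exact Or.inl (h ⟨t, rfl⟩)
        · rcases Finset.mem_insert.mp he' with rfl | h2
          · right
            exact sig_lift hcell h
          · left
            rintro _ ⟨t, rfl⟩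
            apply YF_mem F e' h2
            rw [← sig_range h]
            exact ⟨t, rfl⟩
    obtain ⟨y', hy'⟩ := key z' hBC'
    set w : Ch X' q := z - sbd X' q (psh (Pool.Agent.H904R2.Sph.inc Z) (q + 1) y') with hw
    have hw1 : w = psh (Pool.Agent.H904R2.Sph.inc Z) q (z' - sbd Z q y') := by
      rw [hw, map_sub, hz', sbd_psh]
    have hw2 : w ∈ supported ℤ ℤ ({σ : Sing X' q | Set.range σ ⊆ YF inc Φ F} ∪
        {σ : Sing X' q | (⟨q, σ⟩ : Σ q, Sing X' q) = ⟨m + 1, Φ e⟩}) := by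
      rw [hw1]
      refine supported_map _ (psh (Pool.Agent.H904R2.Sph.inc Z) q) _ ?_ _ hy'
      intro σ hσ
      rw [psh_single]
      apply single_mem_supported'
      rcases hσ with h | h
      · left
        rintro _ ⟨t, rfl⟩
        exact h ⟨t, rfl⟩
      · right
        obtain ⟨h1, h2⟩ := Sigma.mk.inj_iff.mp h
        subst h1
        rw [eq_of_heq h2]
        rfl
    rw [Finsupp.supported_union, Submodule.mem_sup] at hw2
    obtain ⟨w1, hw1m, w2, hw2m, hw12⟩ := hw2
    have hw2A : w2 ∈ supported ℤ ℤ (cAF inc Φ (insert e F) q) := by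
      refine Finsupp.supported_mono ?_ hw2m
      intro σ hσ
      exact Or.inr ⟨e, Finset.mem_insert_self e F, hσ⟩
    have hBCw1 : BCd (cAF inc Φ F) q w1 := by
      cases q with
      | zero => trivial
      | succ q =>
        show sbd X' q w1 ∈ supported ℤ ℤ (cAF inc Φ F q)
        have h1 : sbd X' q w1 = sbd X' q z - sbd X' q w2 := by
          have h2 : w1 = w - w2 := by rw [← hw12]; abel
          rw [h2, map_sub, hw, map_sub, sbd_sbd, sub_zero]
        have h3 : sbd X' q w1 ∈ supported ℤ ℤ (cells inc Φ q) := by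
          rw [h1]
          refine Submodule.sub_mem _ ?_ ?_
          · exact Finsupp.supported_mono (cAF_sub _ q) hBC
          · exact cells_bd h q w2 (Finsupp.supported_mono (cAF_sub _ (q + 1)) hw2A)
        have h4 : sbd X' q w1 ∈ sup (YF inc Φ F) q := sbd_mem_sup hw1m
        refine Finsupp.supported_mono ?_ (supported_inter h3 h4)
        rintro σ ⟨h5, h6⟩
        exact cells_inter h h5 h6
    obtain ⟨y2, hy2, hy2'⟩ := ih q w1 hw1m hBCw1
    refine ⟨psh (Pool.Agent.H904R2.Sph.inc Z) (q + 1) y' + y2, ?_, ?_⟩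
    · exact Submodule.add_mem _ (psh_inc_mem Z y') (sup_mono hFZ (q + 1) hy2)
    · have h1 : z - sbd X' q (psh (Pool.Agent.H904R2.Sph.inc Z) (q + 1) y' + y2) =
          (w1 - sbd X' q y2) + w2 := by
        rw [map_add]
        have : z = w + sbd X' q (psh (Pool.Agent.H904R2.Sph.inc Z) (q + 1) y') := by
          rw [hw]; abel
        rw [this, ← hw12]
        abel
      rw [h1]
      refine Submodule.add_mem _ (Finsupp.supported_mono ?_ hy2') hw2A
      rintro σ (h | ⟨e', he', h⟩)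
      · exact Or.inl h
      · exact Or.inr ⟨e', Finset.mem_insert_of_mem he', h⟩

theorem att_acyc (h : Attached inc m f Φ) (q : ℕ) (z : Ch X' q)
    (hBC : BCd (cells inc Φ) q z) :
    ∃ y : Ch X' (q + 1), z - sbd X' q y ∈ supported ℤ ℤ (cells inc Φ q) := by
  obtain ⟨F, hF⟩ := exists_YF_chain h q z
  have hBC' : BCd (cAF inc Φ F) q z := by
    cases q with
    | zero => trivial
    | succ q =>
      refine Finsupp.supported_mono ?_ (supported_inter hBC (sbd_mem_sup hF))
      rintro σ ⟨h5, h6⟩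
      exact cells_inter h h5 h6
  obtain ⟨y, hy, hy'⟩ := fin_step h F q z hF hBC'
  exact ⟨y, Finsupp.supported_mono (cAF_sub F q) hy'⟩

end

theorem s_ACY : S_ACY := by
  intro X X' _ _ _ _ inc J m f Φ h
  exact ⟨fun z => att_acyc h 0 z trivial, fun q z hz => att_acyc h (q + 1) z hz⟩

end Pool.Agent.L7h74.HS
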