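import Pool.Agent.L7h74.HS.StmD

/-! Project HS: the union of the tower -/

set_option autoImplicit false

namespace Pool.Agent.L7h74.HS

open Pool.Agent.Helper922.HB.Sc (Sing sface sbd)
open Topology

namespace Col

/-- a stage of the tower -/
structure Stage (k : ℕ) where
  X : Type
  top : TopologicalSpace X
  t2 : T2Space X
  u : Sing X (k + 1) → ZMod 2
  hu : SZ k u

attribute [instance] Stage.top Stage.t2

/-- the tower of stages -/
structure Step {k : ℕ} (s t : Stage k) (m : ℕ) (i : C(s.X, t.X)) : Prop where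
  emb : IsClosedEmbedding i
  ext : ∀ σ, t.u (i.comp σ) = s.u σ
  sol : ∀ f c, Prob k s.u m f c → Sol i k t.u m f c

theorem step {k : ℕ} (hk : k ≤ 1) (hS : S_STP) (s : Stage k) (m : ℕ) :
    ∃ (t : Stage k) (i : C(s.X, t.X)), Step s t m i := by
  obtain ⟨X', i1, i2, inc, u', h1, h2, h3, h4⟩ := hS k hk s.X s.u s.hu m
  exact ⟨⟨X', i1, i2, u', h2⟩, inc, h1, h3, h4⟩

/-- the first stage: a point -/
def stage0 (k : ℕ) : Stage k where
  X := Unit
  top := inferInstance
  t2 := inferInstance
  u := fun _ => 0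
  hu := ⟨fun _ => by simp, fun _ _ => rfl⟩

theorem exists_tower {k : ℕ} (hk : k ≤ 1) (hS : S_STP) :
    ∃ (s : ℕ → Stage k) (i : ∀ n, C((s n).X, (s (n + 1)).X)), Nonempty (s 0).X ∧
      ∀ n, Step (s n) (s (n + 1)) (Nat.unpair n).1 (i n) := by
  choose t i hi using fun (s : Stage k) (m : ℕ) => step hk hS s m
  let s : ℕ → Stage k := fun n => Nat.rec (stage0 k) (fun n s => t s (Nat.unpair n).1) n
  exact ⟨s, fun n => i (s n) (Nat.unpair n).1, ⟨()⟩, fun n => hi (s n) (Nat.unpair n).1⟩

section Lim

variable {X : ℕ → Type} [∀ n, TopologicalSpace (X n)] (i : ∀ n, C(X n, X (n + 1)))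

/-- the transition maps -/
def tr {n m : ℕ} (h : n ≤ m) : C(X n, X m) :=
  Nat.leRecOn (C := fun m => C(X n, X m)) h (fun {k} f => (i k).comp f) (ContinuousMap.id (X n))

theorem tr_self (n : ℕ) : tr i (le_refl n) = ContinuousMap.id (X n) :=
  Nat.leRecOn_self _

theorem tr_succ {n m : ℕ} (h : n ≤ m) : tr i (Nat.le_succ_of_le h) = (i m).comp (tr i h) :=
  Nat.leRecOn_succ h _

theorem tr_one (n : ℕ) : tr i (Nat.le_succ n) = i n := by
  rw [tr_succ i (le_refl n), tr_self]
  rfl

theorem tr_trans {n m l : ℕ} (h : n ≤ m) (h' : m ≤ l) :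
    tr i (h.trans h') = (tr i h').comp (tr i h) := by
  induction l, h' using Nat.le_induction with
  | base => rw [tr_self]; rfl
  | succ l hl ih =>
    rw [tr_succ i (h.trans hl), ih, tr_succ i hl]
    rfl

variable (hi : ∀ n, IsClosedEmbedding (i n))

include hi in
theorem tr_emb {n m : ℕ} (h : n ≤ m) : IsClosedEmbedding (tr i h) := by
  induction m, h using Nat.le_induction with
  | base => rw [tr_self]; exact IsClosedEmbedding.id
  | succ m hm ih =>
    rw [tr_succ i hm]
    exact (hi m).comp ih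

/-- two points of the stages are identified if they agree at a later stage -/
def stp : Setoid (Σ n, X n) where
  r p q := ∃ (l : ℕ) (h : p.1 ≤ l) (h' : q.1 ≤ l), tr i h p.2 = tr i h' q.2
  iseqv := by
    refine ⟨fun p => ⟨p.1, le_rfl, le_rfl, rfl⟩, ?_, ?_⟩
    · rintro p q ⟨l, h, h', e⟩
      exact ⟨l, h', h, e.symm⟩
    · rintro p q r ⟨l, h, h', e⟩ ⟨l', g, g', e'⟩
      refine ⟨max l l', h.trans (le_max_left _ _), g'.trans (le_max_right _ _), ?_⟩
      rw [tr_trans i h (le_max_left l l'), tr_trans i g' (le_max_right l l')]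
      change tr i _ (tr i h p.2) = tr i _ (tr i g' r.2)
      rw [e, ← e']
      change ((tr i (le_max_left l l')).comp (tr i h')) q.2 =
        ((tr i (le_max_right l l')).comp (tr i g)) q.2
      rw [← tr_trans, ← tr_trans]

/-- the union of the stages -/
def Lim : Type := Quotient (stp i)

instance : TopologicalSpace (Lim i) := instTopologicalSpaceQuotient

/-- the inclusion of a stage -/
def jj (n : ℕ) : C(X n, Lim i) where
  toFun x := Quotient.mk (stp i) ⟨n, x⟩
  continuous_toFun := continuous_quotient_mk'.comp continuous_sigmaMk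

theorem jj_tr {n m : ℕ} (h : n ≤ m) (x : X n) : jj i m (tr i h x) = jj i n x := by
  apply Quotient.sound
  refine ⟨m, le_rfl, h, ?_⟩
  change tr i (le_refl m) (tr i h x) = _
  rw [tr_self]
  rfl

theorem jj_comp_tr {n m : ℕ} (h : n ≤ m) : (jj i m).comp (tr i h) = jj i n :=
  ContinuousMap.ext fun x => jj_tr i h x

theorem exists_jj (x : Lim i) : ∃ n y, jj i n y = x := by
  induction x using Quotient.inductionOn with
  | h p => exact ⟨p.1, p.2, rfl⟩

include hi in
theorem jj_inj (n : ℕ) : Function.Injective (jj i n) := by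
  intro x y h
  obtain ⟨l, h1, h2, e⟩ := Quotient.exact h
  exact (tr_emb i hi h1).injective e

theorem isClosed_iff (C : Set (Lim i)) : IsClosed C ↔ ∀ n, IsClosed (jj i n ⁻¹' C) := by
  constructor
  · intro h n
    exact h.preimage (jj i n).continuous
  · intro h
    have hq : IsQuotientMap (Quotient.mk (stp i) : (Σ n, X n) → Lim i) :=
      isQuotientMap_quotient_mk'
    exact hq.isClosed_preimage.1 (isClosed_sigma_iff.2 h)

include hi in
theorem jj_emb (n : ℕ) : IsClosedEmbedding (jj i n) := by
  refine IsClosedEmbedding.of_continuous_injective_isClosedMap (jj i n).continuous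
    (jj_inj i hi n) fun A hA => ?_
  rw [isClosed_iff]
  intro m
  rcases le_total n m with h | h
  · have : jj i m ⁻¹' (jj i n '' A) = tr i h '' A := by
      ext y
      constructor
      · rintro ⟨x, hx, e⟩
        refine ⟨x, hx, jj_inj i hi m ?_⟩
        rw [jj_tr]
        exact e
      · rintro ⟨x, hx, rfl⟩
        exact ⟨x, hx, (jj_tr i h x).symm⟩
    rw [this]
    exact (tr_emb i hi h).isClosedMap A hA
  · have : jj i m ⁻¹' (jj i n '' A) = tr i h ⁻¹' A := by
      ext y
      constructor
      · rintro ⟨x, hx, e⟩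
        have : x = tr i h y := jj_inj i hi n (by rw [jj_tr]; exact e)
        rw [Set.mem_preimage, ← this]
        exact hx
      · intro hy
        exact ⟨_, hy, jj_tr i h y⟩
    rw [this]
    exact hA.preimage (tr i h).continuous

include hi in
/-- a compact subset lies in a stage -/
theorem compact_stage [∀ n, T2Space (X n)] {T : Type} [TopologicalSpace T] [CompactSpace T]
    (f : C(T, Lim i)) : ∃ n, ∃ g : C(T, X n), f = (jj i n).comp g := by
  have key : ∃ n, ∀ t, f t ∈ Set.range (jj i n) := by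
    by_contra hcon
    push Not at hcon
    choose t ht using hcon
    let C : ℕ → Set (Lim i) := fun N => {x | ∃ M, N ≤ M ∧ f (t M) = x}
    have hmono : ∀ m M, m ≤ M → Set.range (jj i m) ⊆ Set.range (jj i M) := by
      rintro m M h _ ⟨x, rfl⟩
      exact ⟨tr i h x, jj_tr i h x⟩
    have hC : ∀ N, IsClosed (C N) := by
      intro N
      rw [isClosed_iff]
      intro m
      apply Set.Finite.isClosed
      have h1 : (jj i m '' (jj i m ⁻¹' (C N))).Finite := by
        refine ((Set.finite_lt_nat m).image (fun M => f (t M))).subset ?_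
        rintro _ ⟨x, ⟨M, _, hM⟩, rfl⟩
        refine ⟨M, ?_, hM⟩
        by_contra hlt
        exact ht M (hmono m M (not_lt.1 hlt) ⟨x, hM.symm⟩)
      exact Set.Finite.of_finite_image h1 (jj_inj i hi m).injOn
    have hne := IsCompact.nonempty_iInter_of_sequence_nonempty_isCompact_isClosed
      (fun N => f ⁻¹' (C N)) (fun N x hx => by
        obtain ⟨M, hM, e⟩ := hx
        exact ⟨M, (Nat.le_succ N).trans hM, e⟩)
      (fun N => ⟨t N, N, le_rfl, rfl⟩) ((hC 0).preimage f.continuous).isCompact
      (fun N => (hC N).preimage f.continuous)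
    obtain ⟨s, hs⟩ := hne
    rw [Set.mem_iInter] at hs
    obtain ⟨m, y, hy⟩ := exists_jj i (f s)
    obtain ⟨M, hM, e⟩ := hs m
    exact ht M (hmono m M hM ⟨y, hy.trans e.symm⟩)
  obtain ⟨n, hn⟩ := key
  choose g hg using hn
  have hgc : Continuous g := by
    rw [(jj_emb i hi n).isInducing.continuous_iff]
    have : (jj i n) ∘ g = f := funext hg
    rw [this]
    exact f.continuous
  exact ⟨n, ⟨g, hgc⟩, ContinuousMap.ext fun x => (hg x).symm⟩

end Lim

end Col

instance bd_compact (m : ℕ) : CompactSpace (Bd m) := by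
  have : IsClosed {t : stdSimplex ℝ (Fin (m + 1)) | ∃ i, t.1 i = 0} := by
    have h : {t : stdSimplex ℝ (Fin (m + 1)) | ∃ i, t.1 i = 0} = ⋃ i, {t | t.1 i = 0} := by
      ext t
      simp
    rw [h]
    exact isClosed_iUnion_of_finite fun i =>
      isClosed_eq ((continuous_apply i).comp continuous_subtype_val) continuous_const
  exact isCompact_iff_compactSpace.1 this.isCompact

namespace Col

open Classical in
/-- the cocycle on the union -/
noncomputable def ui {k : ℕ} (s : ℕ → Stage k) (i : ∀ n, C((s n).X, (s (n + 1)).X)) :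
    Sing (Lim i) (k + 1) → ZMod 2 :=
  fun σ => if h : ∃ n, ∃ g : Sing (s n).X (k + 1), σ = (jj i n).comp g then
    (s h.choose).u h.choose_spec.choose else 0

section

variable {k : ℕ} (s : ℕ → Stage k) (i : ∀ n, C((s n).X, (s (n + 1)).X))
  (hi : ∀ n, Step (s n) (s (n + 1)) (Nat.unpair n).1 (i n))

include hi in
theorem u_tr {n m : ℕ} (h : n ≤ m) (g : Sing (s n).X (k + 1)) :
    (s m).u ((tr i h).comp g) = (s n).u g := by
  induction m, h using Nat.le_induction with
  | base => rw [tr_self]; rfl
  | succ m hm ih =>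
    rw [tr_succ i hm, ← ih, ← (hi m).ext]
    rfl

include hi in
theorem u_eq {n m : ℕ} (g : Sing (s n).X (k + 1)) (g' : Sing (s m).X (k + 1))
    (h : (jj i n).comp g = (jj i m).comp g') : (s n).u g = (s m).u g' := by
  have hcl : ∀ n, IsClosedEmbedding (i n) := fun n => (hi n).emb
  have main : ∀ {n m : ℕ} (_ : n ≤ m) (g : Sing (s n).X (k + 1)) (g' : Sing (s m).X (k + 1)),
      (jj i n).comp g = (jj i m).comp g' → (s n).u g = (s m).u g' := by
    intro n m hnm g g' h
    have : (tr i hnm).comp g = g' := by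
      ext t
      apply jj_inj i hcl m
      change jj i m (tr i hnm (g t)) = jj i m (g' t)
      rw [jj_tr]
      exact congrArg (fun f : C(_, _) => f t) h
    rw [← this, u_tr s i hi]
  rcases le_total n m with hnm | hnm
  · exact main hnm g g' h
  · exact (main hnm g' g h.symm).symm

include hi in
theorem ui_eq (n : ℕ) (g : Sing (s n).X (k + 1)) : ui s i ((jj i n).comp g) = (s n).u g := by
  have h : ∃ n', ∃ g' : Sing (s n').X (k + 1), (jj i n).comp g = (jj i n').comp g' :=
    ⟨n, g, rfl⟩
  unfold ui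
  rw [dif_pos h]
  exact (u_eq s i hi _ _ h.choose_spec.choose_spec).symm

end

end Col

open Col in
theorem s_COL : S_COL := by
  intro hS k hk
  obtain ⟨s, i, ⟨x0⟩, hi⟩ := exists_tower hk hS
  have hcl : ∀ n, IsClosedEmbedding (i n) := fun n => (hi n).emb
  refine ⟨Lim i, inferInstance, ⟨jj i 0 x0⟩, ui s i, ⟨?_, ?_⟩, ?_⟩
  · intro σ
    obtain ⟨n, g, rfl⟩ := compact_stage i hcl σ
    rw [← (s n).hu.coc g]
    exact Finset.sum_congr rfl fun j _ => ui_eq s i hi n (pl g j.succAbove)
  · intro j σ
    obtain ⟨n, g, rfl⟩ := compact_stage i hcl σ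
    rw [← (s n).hu.nrm j g]
    exact ui_eq s i hi n (pl g j.predAbove)
  · intro m f c hf
    obtain ⟨n, g, rfl⟩ := compact_stage i hcl f
    have hN : n ≤ Nat.pair m n := Nat.right_le_pair m n
    have hm : (Nat.unpair (Nat.pair m n)).1 = m := by rw [Nat.unpair_pair]
    generalize Nat.pair m n = N at hN hm
    subst hm
    have hP : Prob k (s N).u (Nat.unpair N).1 ((tr i hN).comp g) c := by
      refine ⟨hf.coc, hf.nrm, fun g' hg' => ?_⟩
      rw [hf.bd g' hg']
      rw [← ui_eq s i hi N (bpl ((tr i hN).comp g) g' hg')]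
      congr 1
      ext t
      exact (jj_tr i hN _).symm
    obtain ⟨τ, h1, h2⟩ := (hi N).sol _ c hP
    refine ⟨(jj i (N + 1)).comp τ, fun t => ?_, fun g' => ?_⟩
    · change jj i (N + 1) (τ t.1) = jj i n (g t)
      rw [h1 t]
      change jj i (N + 1) (i N (tr i hN (g t))) = jj i n (g t)
      rw [← tr_one i N, jj_tr, jj_tr]
    · rw [← h2 g']
      exact ui_eq s i hi (N + 1) (pl τ g')

end Pool.Agent.L7h74.HS
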