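import Pool.Agent.L7h74.HS.StmD

/-! Project HS: one step of the tower -/

set_option autoImplicit false

namespace Pool.Agent.L7h74.HS

open Pool.Agent.Helper922.HB.Sc (Sing sface sbd)

theorem s_STP (hA : S_ATT) (hC : S_ACY) (hE : S_EXT) : S_STP := by
  intro k hk X _ _ u hu m
  let J : Type := {p : C(Bd (m + 1), X) × ((Fin (k + 2) →o Fin (m + 2)) → ZMod 2) //
    Prob k u m p.1 p.2}
  obtain ⟨X', i1, i2, inc, Φ, hat⟩ := hA X J m (fun j => j.1.1)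
  obtain ⟨u', hu', h1, h2⟩ := hE k hk X X' inc J m (fun j => j.1.1) Φ hat
    (hC X X' inc J m (fun j => j.1.1) Φ hat) u hu (fun j => j.1.2) (fun j => j.2)
  refine ⟨X', i1, i2, inc, u', hat.emb, hu', h1, fun f c hfc => ?_⟩
  exact ⟨Φ ⟨(f, c), hfc⟩, fun t => hat.bd ⟨(f, c), hfc⟩ t, fun g => h2 ⟨(f, c), hfc⟩ g⟩

end Pool.Agent.L7h74.HS
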