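import Pool.Agent.L7h74.HS.Stm
import Pool.Agent.H904R2.Cell

/-!
# Project HS: statements of the topological part

Spaces of type `K(F₂, 1)` and `K(F₂, 2)` are obtained by attaching cells for all extension problems,
again and again.
-/

set_option autoImplicit false

namespace Pool.Agent.L7h74.HS

open CategoryTheory Opposite
open Pool.Agent.Helper922.HB.Sc (Sing sface sbd)
open Pool.Agent.H904R2 (Ch)

/-- the boundary of the topological simplex of dimension `m` -/
abbrev Bd (m : ℕ) : Type := {t : stdSimplex ℝ (Fin (m + 1)) // ∃ i, t.1 i = 0}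

/-- the simplex `σ` composed with the affine map given by `g` on the vertices -/
noncomputable def pl {X : Type} [TopologicalSpace X] {q m : ℕ} (σ : Sing X m)
    (g : Fin (q + 1) → Fin (m + 1)) : Sing X q :=
  σ.comp ⟨stdSimplex.map g, stdSimplex.continuous_map g⟩

theorem map_mem_bd {q m : ℕ} (g : Fin (q + 1) → Fin (m + 1)) (hg : ¬ Function.Surjective g)
    (t : stdSimplex ℝ (Fin (q + 1))) : ∃ i, (stdSimplex.map g t).1 i = 0 := by
  rw [Function.Surjective] at hg
  push Not at hg
  obtain ⟨i, hi⟩ := hg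
  refine ⟨i, ?_⟩
  change (FunOnFinite.linearMap ℝ ℝ g t.1) i = 0
  rw [FunOnFinite.linearMap_apply_apply]
  apply Finset.sum_eq_zero
  intro j hj
  simp only [Finset.mem_filter] at hj
  exact absurd hj.2 (hi j)

/-- a map `f` on the boundary composed with the affine map given by `g`, not surjective on vertices -/
noncomputable def bpl {X : Type} [TopologicalSpace X] {q m : ℕ} (f : C(Bd m, X))
    (g : Fin (q + 1) → Fin (m + 1)) (hg : ¬ Function.Surjective g) : Sing X q :=
  f.comp ⟨fun t => ⟨stdSimplex.map g t, map_mem_bd g hg t⟩,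
    (stdSimplex.continuous_map g).subtype_mk _⟩

/-- normalised singular cocycles modulo two of degree `k + 1` -/
structure SZ {X : Type} [TopologicalSpace X] (k : ℕ) (u : Sing X (k + 1) → ZMod 2) : Prop where
  coc : ∀ σ : Sing X (k + 2), ∑ i : Fin (k + 3), u (pl σ i.succAbove) = 0
  nrm : ∀ (i : Fin (k + 1)) (σ : Sing X k), u (pl σ i.predAbove) = 0

/-- An extension problem of dimension `m + 1`: a map `f` on the boundary and a normalised cocycle `c`
of the standard simplex that agrees with `u` on the boundary -/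
structure Prob {X : Type} [TopologicalSpace X] (k : ℕ) (u : Sing X (k + 1) → ZMod 2) (m : ℕ)
    (f : C(Bd (m + 1), X)) (c : (Fin (k + 2) →o Fin (m + 2)) → ZMod 2) : Prop where
  coc : ∀ g : Fin (k + 3) →o Fin (m + 2),
    ∑ i : Fin (k + 3), c (g.comp (Fin.succAboveOrderEmb i).toOrderHom) = 0
  nrm : ∀ g : Fin (k + 2) →o Fin (m + 2), ¬ Function.Injective g → c g = 0
  bd : ∀ (g : Fin (k + 2) →o Fin (m + 2)) (hg : ¬ Function.Surjective g), c g = u (bpl f g hg)

/-- `τ` in `X'` solves the problem `f, c` of `X` -/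
def Sol {X X' : Type} [TopologicalSpace X] [TopologicalSpace X'] (inc : C(X, X')) (k : ℕ)
    (u' : Sing X' (k + 1) → ZMod 2) (m : ℕ)
    (f : C(Bd (m + 1), X)) (c : (Fin (k + 2) →o Fin (m + 2)) → ZMod 2) : Prop :=
  ∃ τ : Sing X' (m + 1), (∀ t : Bd (m + 1), τ t.1 = inc (f t)) ∧
    ∀ g : Fin (k + 2) →o Fin (m + 2), u' (pl τ g) = c g

/-- `X'` is obtained from `X` by attaching cells `Φ j` of dimension `m + 1` along `f j` -/
structure Attached {X X' : Type} [TopologicalSpace X] [TopologicalSpace X'] (inc : C(X, X'))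
    {J : Type} (m : ℕ) (f : J → C(Bd (m + 1), X)) (Φ : J → Sing X' (m + 1)) : Prop where
  emb : Topology.IsClosedEmbedding inc
  bd : ∀ j (t : Bd (m + 1)), Φ j t.1 = inc (f j t)
  int : ∀ j (t : stdSimplex ℝ (Fin (m + 2))), (∀ i, t.1 i ≠ 0) → Φ j t ∉ Set.range inc
  inj : ∀ j j' (t t' : stdSimplex ℝ (Fin (m + 2))), (∀ i, t.1 i ≠ 0) → (∀ i, t'.1 i ≠ 0) →
    Φ j t = Φ j' t' → j = j' ∧ t = t'
  cov : ∀ x, x ∈ Set.range inc ∨ ∃ j t, Φ j t = x
  coh : ∀ C : Set X', IsClosed (inc ⁻¹' C) → (∀ j, IsClosed (Φ j ⁻¹' C)) → IsClosed C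

/-- (ATT) cells can be attached; the result is Hausdorff. (`X ⊕ (J × simplex)` modulo
`(j, t) ~ f j t` for `t` in the boundary; Hausdorff with the radial retraction of the simplex minus
its barycentre, compare `H904R2.Cell.RR`.) -/
def S_ATT : Prop :=
  ∀ (X : Type) [TopologicalSpace X] [T2Space X] (J : Type) (m : ℕ) (f : J → C(Bd (m + 1), X)),
    ∃ (X' : Type) (_ : TopologicalSpace X') (_ : T2Space X') (inc : C(X, X'))
      (Φ : J → Sing X' (m + 1)), Attached inc m f Φ

/-- the simplices in `X` and the simplices `Φ j` -/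
def cells {X X' : Type} [TopologicalSpace X] [TopologicalSpace X'] (inc : C(X, X'))
    {J : Type} {m : ℕ} (Φ : J → Sing X' (m + 1)) (q : ℕ) : Set (Sing X' q) :=
  {σ | Set.range σ ⊆ Set.range inc ∨ ∃ j, (⟨q, σ⟩ : Σ q, Sing X' q) = ⟨m + 1, Φ j⟩}

/-- relative acyclicity -/
def Acyclic {X' : Type} [TopologicalSpace X'] (A : ∀ q, Set (Sing X' q)) : Prop :=
  (∀ z : Ch X' 0, ∃ y : Ch X' 1, z - sbd X' 0 y ∈ Finsupp.supported ℤ ℤ (A 0)) ∧
    ∀ (q : ℕ) (z : Ch X' (q + 1)), sbd X' q z ∈ Finsupp.supported ℤ ℤ (A q) →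
      ∃ y : Ch X' (q + 2), z - sbd X' (q + 1) y ∈ Finsupp.supported ℤ ℤ (A (q + 1))

/-- (ACY) the singular chains of `X'` relative to those of `X` and the `Φ j` are acyclic. One cell:
`H904R2.cell_acyc`; finitely many: induction (in the closed subspaces); in general a chain meets only
finitely many open cells. Model: `H904R2/Skel.lean` (`finite_cells`, `skel_step`, `skel_acyc'`). -/
def S_ACY : Prop :=
  ∀ (X X' : Type) [TopologicalSpace X] [T2Space X] [TopologicalSpace X'] [T2Space X']
    (inc : C(X, X')) (J : Type) (m : ℕ) (f : J → C(Bd (m + 1), X)) (Φ : J → Sing X' (m + 1)),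
    Attached inc m f Φ → Acyclic (cells inc Φ)

/-- (EXT) extension of cocycles, given the acyclicity. Define the cochain on `cells` (`u` on the
simplices of `X`, `c j (id)` on `Φ j` if `m = k`, cocycle condition on `Φ j` if `m = k + 1` from the
one of `c j`); extend it to a cocycle: it vanishes on `cells ∩ (boundaries + 2 chains)` by acyclicity,
so it extends to an `F₂`-linear form on the chains that vanishes on the boundaries. Normalisation:
`k = 0`: automatic. `k = 1`: the values on degenerate simplices only depend on a vertex `x`, subtract the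
coboundary of the cochain which has this value at the degenerate edge at `x`. -/
def S_EXT : Prop :=
  ∀ (k : ℕ), k ≤ 1 → ∀ (X X' : Type) [TopologicalSpace X] [T2Space X] [TopologicalSpace X']
    [T2Space X'] (inc : C(X, X')) (J : Type) (m : ℕ) (f : J → C(Bd (m + 1), X))
    (Φ : J → Sing X' (m + 1)), Attached inc m f Φ → Acyclic (cells inc Φ) →
    ∀ (u : Sing X (k + 1) → ZMod 2) (_ : SZ k u)
      (c : J → (Fin (k + 2) →o Fin (m + 2)) → ZMod 2) (_ : ∀ j, Prob k u m (f j) (c j)),
      ∃ u' : Sing X' (k + 1) → ZMod 2, SZ k u' ∧ (∀ σ, u' (inc.comp σ) = u σ) ∧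
        ∀ j (g : Fin (k + 2) →o Fin (m + 2)), u' (pl (Φ j) g) = c j g

/-- (STP) one step: all problems of dimension `m + 1` are solved. From `S_ATT`, `S_ACY`, `S_EXT` with
`J` the type of all problems. -/
def S_STP : Prop :=
  ∀ (k : ℕ), k ≤ 1 → ∀ (X : Type) [TopologicalSpace X] [T2Space X]
    (u : Sing X (k + 1) → ZMod 2) (_ : SZ k u) (m : ℕ),
    ∃ (X' : Type) (_ : TopologicalSpace X') (_ : T2Space X') (inc : C(X, X'))
      (u' : Sing X' (k + 1) → ZMod 2), Topology.IsClosedEmbedding inc ∧ SZ k u' ∧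
      (∀ σ, u' (inc.comp σ) = u σ) ∧ ∀ f c, Prob k u m f c → Sol inc k u' m f c

/-- (COL) the limit: start with a point, step number `N` solves the problems of dimension
`(Nat.unpair N).1 + 1`; the union `X` has the topology where a set is closed iff it is closed in all
stages; a compact subset lies in one stage (otherwise it contains an infinite closed discrete
subset). -/
def S_COL : Prop :=
  S_STP → ∀ k : ℕ, k ≤ 1 → ∃ (X : Type) (_ : TopologicalSpace X) (_ : Nonempty X)
    (u : Sing X (k + 1) → ZMod 2), SZ k u ∧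
      ∀ m f c, Prob k u m f c → Sol (ContinuousMap.id X) k u m f c

/-- (BND) translation to simplicial sets: the map `Sg X → KK k` given by `u` has the right lifting
property with respect to `∂Δ[m] → Δ[m]`. A map `∂Δ[m + 1] → Sg X` is a compatible family of faces, which
glue to a continuous map on the topological boundary. -/
def S_BND : Prop :=
  ∀ (k : ℕ), k ≤ 1 → ∀ (X : Type) [TopologicalSpace X] [Nonempty X]
    (u : Sing X (k + 1) → ZMod 2) (_ : SZ k u),
    (∀ m f c, Prob k u m f c → Sol (ContinuousMap.id X) k u m f c) →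
      ∃ p : Sg X ⟶ KK k, TrivFib p

end Pool.Agent.L7h74.HS
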