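import Pool.Agent.L7h74.HS.Fin
import Pool.Agent.L7h74.HS.Stp
import Pool.Agent.L7h74.HS.Col
import Pool.Agent.L7h74.HS.Acy
import Pool.Agent.L7h75.HS.Kj
import Pool.Agent.L7h75.HS.Uni
import Pool.Agent.L7h75.HS.Bnd
import Pool.Agent.L7h34.HS.Exi
import Pool.Agent.L7h34.HS.Sc
import Pool.Agent.L7h3.HS.For
import Pool.Agent.L7h3.HS.Trn
import Pool.Agent.L7h15.HS.Att
import Pool.Agent.L7h3.HS.Bis
import Pool.Agent.L7h53.HS.Kil
import Pool.Agent.L7h53.HS.Ind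

/-! Project HS: the final assembly, from the extension of cocycles -/

set_option autoImplicit false

namespace Pool.Agent.L7h74.HS

open CategoryTheory Opposite Limits MonoidalCategory

theorem interp_iff (X : SSet.{0}) {n : ℕ} (φ : Form n) :
    ∀ E : Over (pw X n), Interp X φ E ↔ IsInterp X φ E := by
  induction φ with
  | top => exact fun E => Iff.rfl
  | bot => exact fun E => Iff.rfl
  | eq i j => exact fun E => Iff.rfl
  | and φ ψ h1 h2 =>
    intro E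
    change (∃ A A', Interp X φ A ∧ Interp X ψ A' ∧ IsProd A A' E) ↔
      ∃ A A', IsInterp X φ A ∧ IsInterp X ψ A' ∧ IsProd A A' E
    simp only [h1, h2]
  | or φ ψ h1 h2 =>
    intro E
    change (∃ A A', Interp X φ A ∧ Interp X ψ A' ∧ IsSum A A' E) ↔
      ∃ A A', IsInterp X φ A ∧ IsInterp X ψ A' ∧ IsSum A A' E
    simp only [h1, h2]
  | imp φ ψ h1 h2 =>
    intro E
    change (∃ A A', Interp X φ A ∧ Interp X ψ A' ∧ IsExp A A' E) ↔
      ∃ A A', IsInterp X φ A ∧ IsInterp X ψ A' ∧ IsExp A A' E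
    simp only [h1, h2]
  | @all n φ h =>
    intro E
    change (∃ A, Interp X φ A ∧ IsPi (prn X n) A E) ↔ ∃ A, IsInterp X φ A ∧ IsPi (prn X n) A E
    simp only [h]
  | @ex n φ h =>
    intro E
    change (∃ A, Interp X φ A ∧ IsSigma (prn X n) A E) ↔
      ∃ A, IsInterp X φ A ∧ IsSigma (prn X n) A E
    simp only [h]

theorem trueIn_iff (X : SSet.{0}) (φ : Form 0) : TrueIn X φ ↔ Holds X φ := by
  unfold TrueIn Holds
  simp only [interp_iff]

theorem for_ : S_FOR :=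
  Pool.Agent.L7h3.HS.s_FOR Pool.Agent.L7h75.HS.s_REP
    (Pool.Agent.L7h3.HS.s_TRN Pool.Agent.L7h75.HS.s_REP)

theorem bis_ : S_BIS :=
  Pool.Agent.L7h3.HS.s_BIS Pool.Agent.L7h53.HS.s_KIL Pool.Agent.L7h53.HS.s_IND

theorem top_ (hE : S_EXT) : S_TOP :=
  top_of (s_STP Pool.Agent.L7h15.HS.s_ATT s_ACY hE) s_COL Pool.Agent.L7h75.HS.s_BND

/-- existence and uniqueness of the interpretation -/
theorem interp (X : SSet.{0}) (n : ℕ) (φ : Form n) : ∃ E : Over (pw X n), Interp X φ E ∧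
    ∀ E' : Over (pw X n), Interp X φ E' → Nonempty (E ≅ E') := by
  obtain ⟨E, hE⟩ := Pool.Agent.L7h34.HS.s_EXI X φ
  exact ⟨E, (interp_iff X φ E).2 hE, fun E' hE' =>
    Pool.Agent.L7h75.HS.s_UNI X φ E E' hE ((interp_iff X φ E').1 hE')⟩

/-- two spaces with the same true sentences, only one of them simply connected -/
theorem two_spaces (hE : S_EXT) :
    ∃ (X Y : Type) (_ : TopologicalSpace X) (_ : TopologicalSpace Y),
      PathConnectedSpace X ∧ ¬ SimplyConnectedSpace X ∧ SimplyConnectedSpace Y ∧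
        ∀ φ : Form 0, TrueIn (Sg X) φ ↔ TrueIn (Sg Y) φ := by
  obtain ⟨X, i, p, hp⟩ := top_ hE 0 (by norm_num)
  obtain ⟨Y, j, q, hq⟩ := top_ hE 1 le_rfl
  refine ⟨X, Y, i, j, Pool.Agent.L7h34.HS.pathConn p hp, Pool.Agent.L7h34.HS.s_SC0 X p hp,
    Pool.Agent.L7h34.HS.s_SC1 Y q hq, fun φ => ?_⟩
  rw [trueIn_iff, trueIn_iff]
  refine ⟨fun h => ?_, fun h => ?_⟩
  · exact same_holds Pool.Agent.L7h75.HS.t_KJ Pool.Agent.L7h34.HS.s_EXI for_ bis_ 0 1
      (by norm_num) le_rfl (Sg X) (Sg Y) p q hp hq φ h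
  · exact same_holds Pool.Agent.L7h75.HS.t_KJ Pool.Agent.L7h34.HS.s_EXI for_ bis_ 1 0 le_rfl
      (by norm_num) (Sg Y) (Sg X) q p hq hp φ h

end Pool.Agent.L7h74.HS
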