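import Pool.Agent.L7h74.HS.Sem

/-!
# Project HS: definitions used in the proof

`IsInterp X φ E` : the definition `Interp X φ E` with the clauses unfolded.
-/

set_option autoImplicit false

namespace Pool.Agent.L7h74.HS

open CategoryTheory Opposite Limits MonoidalCategory

theorem snoc_map {α β : Type} (g : α → β) {n : ℕ} (p : Fin n → α) (x : α) (i : Fin (n + 1)) :
    Fin.snoc (α := fun _ => β) (fun j => g (p j)) (g x) i =
      g (Fin.snoc (α := fun _ => α) p x i) := by
  refine Fin.lastCases ?_ (fun i => ?_) i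
  · rw [Fin.snoc_last, Fin.snoc_last]
  · rw [Fin.snoc_castSucc, Fin.snoc_castSucc]

/-- the map `Z → X ^ (n + 1)` with components `a : Z → X ^ n` and `b : Z → X` -/
def cns {X : SSet.{0}} {n : ℕ} {Z : SSet.{0}} (a : Z ⟶ pw X n) (b : Z ⟶ X) : Z ⟶ pw X (n + 1) where
  app m := ↾ fun z => Fin.snoc (α := fun _ => X.obj m) (a.app m z) (b.app m z)
  naturality m m' f := by
    ext z
    funext i
    have ha : a.app m' (Z.map f z) = (pw X n).map f (a.app m z) :=
      ConcreteCategory.congr_hom (a.naturality f) z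
    have hb : b.app m' (Z.map f z) = X.map f (b.app m z) :=
      ConcreteCategory.congr_hom (b.naturality f) z
    change Fin.snoc (α := fun _ => X.obj m') (a.app m' (Z.map f z)) (b.app m' (Z.map f z)) i =
      X.map f (Fin.snoc (α := fun _ => X.obj m) (a.app m z) (b.app m z) i)
    rw [ha, hb]
    exact snoc_map (fun t => X.map f t) (a.app m z) (b.app m z) i

/-- `E` over `X ^ n` is an interpretation of the formula `φ` when the sort is interpreted by `X`:

* `⊤` is a terminal object and `⊥` an initial object of the simplicial sets over `X ^ n`;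
* `x_i = x_j` is the object of the homotopies from `x_i` to `x_j`, that is, the pullback of the path
  space `X ^ Δ[1]` along `(x_i, x_j) : X ^ n → X × X`: it carries a universal homotopy;
* `∧`, `∨` are products and coproducts over `X ^ n`;
* `φ ⇒ ψ` is an exponential `B ^ A` over `X ^ n`: it carries a universal map `E × A → B`, where
  `E × A` is the pullback of `E` to `A` composed with `A → X ^ n`;
* `∀` carries a universal map from its pullback to `X ^ (n + 1)` to the interpretation of `φ`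
  (right adjoint of the pullback);
* `∃` is the composition with the projection `X ^ (n + 1) → X ^ n`. -/
def IsInterp (X : SSet.{0}) : {n : ℕ} → Form n → Over (pw X n) → Prop
  | _, .top, E => Nonempty (IsTerminal E)
  | _, .bot, E => Nonempty (IsInitial E)
  | _, .eq i j, E => ∃ H : SSet.Homotopy (E.hom ≫ pr X i) (E.hom ≫ pr X j),
      ∀ (T : Over (pw X _)) (G : SSet.Homotopy (T.hom ≫ pr X i) (T.hom ≫ pr X j)),
        ∃! h : T ⟶ E, (h.left ▷ (SSet.stdSimplex.obj (SimplexCategory.mk 1) : SSet.{0})) ≫ H.h = G.h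
  | _, .and φ ψ, E => ∃ A B, IsInterp X φ A ∧ IsInterp X ψ B ∧
      ∃ (a : E ⟶ A) (b : E ⟶ B), Nonempty (IsLimit (BinaryFan.mk a b))
  | _, .or φ ψ, E => ∃ A B, IsInterp X φ A ∧ IsInterp X ψ B ∧
      ∃ (a : A ⟶ E) (b : B ⟶ E), Nonempty (IsColimit (BinaryCofan.mk a b))
  | _, .imp φ ψ, E => ∃ A B, IsInterp X φ A ∧ IsInterp X ψ B ∧
      ∃ ev : (Over.map A.hom).obj ((Over.pullback A.hom).obj E) ⟶ B,
        ∀ (T : Over (pw X _)) (g : (Over.map A.hom).obj ((Over.pullback A.hom).obj T) ⟶ B),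
          ∃! h : T ⟶ E, (Over.map A.hom).map ((Over.pullback A.hom).map h) ≫ ev = g
  | n, .all φ, E => ∃ A, IsInterp X φ A ∧ ∃ ev : (Over.pullback (prn X n)).obj E ⟶ A,
      ∀ (T : Over (pw X n)) (g : (Over.pullback (prn X n)).obj T ⟶ A),
        ∃! h : T ⟶ E, (Over.pullback (prn X n)).map h ≫ ev = g
  | n, .ex φ, E => ∃ A, IsInterp X φ A ∧ Nonempty (E ≅ (Over.map (prn X n)).obj A)

/-- The sentence `φ` is true when the sort is interpreted by `X`: its interpretation (which is unique
up to isomorphism over `X ^ 0`) is not empty. -/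
def Holds (X : SSet.{0}) (φ : Form 0) : Prop :=
  ∃ E : Over (pw X 0), IsInterp X φ E ∧ Nonempty (E.left.obj (op (SimplexCategory.mk 0)))

/-! ### Forcing -/

/-- Forcing: the truth of a formula at a connected simplicial set `Z` over `X ^ n` -/
def Forces (X : SSet.{0}) : {n : ℕ} → Form n → (Z : SSet.{0}) → (Z ⟶ pw X n) → Prop
  | _, .top, _, _ => True
  | _, .bot, _, _ => False
  | _, .eq i j, _, a => Nonempty (SSet.Homotopy (a ≫ pr X i) (a ≫ pr X j))
  | _, .and φ ψ, Z, a => Forces X φ Z a ∧ Forces X ψ Z a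
  | _, .or φ ψ, Z, a => Forces X φ Z a ∨ Forces X ψ Z a
  | _, .imp φ ψ, Z, a => ∀ (W : SSet.{0}) (_ : W.IsConnected) (f : W ⟶ Z),
      Forces X φ W (f ≫ a) → Forces X ψ W (f ≫ a)
  | _, .all φ, Z, a => ∀ (W : SSet.{0}) (_ : W.IsConnected) (f : W ⟶ Z) (b : W ⟶ X),
      Forces X φ W (cns (f ≫ a) b)
  | _, .ex φ, Z, a => ∃ b : Z ⟶ X, Forces X φ Z (cns a b)

/-! ### Cocycles modulo two -/

/-- the simplices of dimension `k` -/
abbrev Sx (Z : SSet.{0}) (k : ℕ) : Type := Z.obj (op (SimplexCategory.mk k))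

/-- the coboundary of a `k`-cochain modulo two -/
def dl {Z : SSet.{0}} {k : ℕ} (β : Sx Z k → ZMod 2) : Sx Z (k + 1) → ZMod 2 :=
  fun z => ∑ i : Fin (k + 2), β (SimplicialObject.δ Z i z)

/-- a normalised `(k + 1)`-cocycle modulo two -/
def NZ {Z : SSet.{0}} {k : ℕ} (u : Sx Z (k + 1) → ZMod 2) : Prop :=
  dl u = 0 ∧ ∀ (i : Fin (k + 1)) (s : Sx Z k), u (SimplicialObject.σ Z i s) = 0

/-- restriction of a cochain along a map -/
def rs {Z W : SSet.{0}} {k : ℕ} (f : W ⟶ Z) (u : Sx Z k → ZMod 2) : Sx W k → ZMod 2 :=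
  fun w => u (f.app _ w)

theorem dl_rs {Z W : SSet.{0}} {k : ℕ} (f : W ⟶ Z) (u : Sx Z k → ZMod 2) :
    dl (rs f u) = rs f (dl u) := by
  funext w
  refine Finset.sum_congr rfl fun i _ => ?_
  have h : f.app _ (SimplicialObject.δ W i w) = SimplicialObject.δ Z i (f.app _ w) :=
    ConcreteCategory.congr_hom (f.naturality (SimplexCategory.δ i).op) w
  change u (f.app _ (SimplicialObject.δ W i w)) = u (SimplicialObject.δ Z i (f.app _ w))
  rw [h]

theorem NZ.rs {Z W : SSet.{0}} {k : ℕ} (f : W ⟶ Z) {u : Sx Z (k + 1) → ZMod 2} (h : NZ u) :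
    NZ (rs f u) := by
  refine ⟨?_, fun i s => ?_⟩
  · rw [dl_rs, h.1]
    rfl
  · have h1 : f.app _ (SimplicialObject.σ W i s) = SimplicialObject.σ Z i (f.app _ s) :=
      ConcreteCategory.congr_hom (f.naturality (SimplexCategory.σ i).op) s
    change u (f.app _ (SimplicialObject.σ W i s)) = 0
    rw [h1, h.2]

/-- Forcing for the cohomology classes of degree `k + 1`: the variables are interpreted by normalised
cocycles of degree `k + 1`, equality means cohomologous. -/
def CForces (k : ℕ) : {n : ℕ} → Form n → (Z : SSet.{0}) → (Fin n → (Sx Z (k + 1) → ZMod 2)) → Prop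
  | _, .top, _, _ => True
  | _, .bot, _, _ => False
  | _, .eq i j, _, a => ∃ β, a i + a j = dl β
  | _, .and φ ψ, Z, a => CForces k φ Z a ∧ CForces k ψ Z a
  | _, .or φ ψ, Z, a => CForces k φ Z a ∨ CForces k ψ Z a
  | _, .imp φ ψ, Z, a => ∀ (W : SSet.{0}) (_ : W.IsConnected) (f : W ⟶ Z),
      CForces k φ W (fun i => rs f (a i)) → CForces k ψ W (fun i => rs f (a i))
  | _, .all φ, Z, a => ∀ (W : SSet.{0}) (_ : W.IsConnected) (f : W ⟶ Z)
      (b : Sx W (k + 1) → ZMod 2), NZ b → CForces k φ W (Fin.snoc (fun i => rs f (a i)) b)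
  | _, .ex φ, Z, a => ∃ b : Sx Z (k + 1) → ZMod 2, NZ b ∧ CForces k φ Z (Fin.snoc a b)

/-- the simplicial set of the normalised cocycles of degree `k + 1`, an Eilenberg-MacLane complex -/
def KK (k : ℕ) : SSet.{0} where
  obj m := {c : Sx (SSet.stdSimplex.obj m.unop) (k + 1) → ZMod 2 // NZ c}
  map f := ↾ fun c => ⟨rs (SSet.stdSimplex.map f.unop) c.1, c.2.rs _⟩
  map_id m := by
    ext x w
    change x.1 ((SSet.stdSimplex.map (𝟙 m.unop)).app _ w) = x.1 w
    rw [CategoryTheory.Functor.map_id]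
    rfl
  map_comp f g := by
    ext x w
    change x.1 ((SSet.stdSimplex.map (g.unop ≫ f.unop)).app _ w) =
      x.1 ((SSet.stdSimplex.map f.unop).app _ ((SSet.stdSimplex.map g.unop).app _ w))
    rw [CategoryTheory.Functor.map_comp]
    rfl

end Pool.Agent.L7h74.HS
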