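import Mathlib

/-!
# Homotopical semantics of first-order formulas over one sort, in simplicial sets

`Form n` : the formulas with equality as the only atom, with free variables among `n` variables.
`Interp X φ E` : the simplicial set `E` over `X ^ n` is the interpretation of the formula `φ` when the
sort is interpreted by `X`. Every clause is a universal property in the category of simplicial sets
over `X ^ n`.
-/

set_option autoImplicit false

namespace Pool.Agent.L7h74.HS

open CategoryTheory Opposite Limits MonoidalCategory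

/-- The formulas with free variables among `x_0, ..., x_{n-1}`, over the signature with one sort and
no function symbols. A quantifier binds the last variable. -/
inductive Form : ℕ → Type
  | top {n : ℕ} : Form n
  | bot {n : ℕ} : Form n
  | eq {n : ℕ} (i j : Fin n) : Form n
  | and {n : ℕ} (φ ψ : Form n) : Form n
  | or {n : ℕ} (φ ψ : Form n) : Form n
  | imp {n : ℕ} (φ ψ : Form n) : Form n
  | all {n : ℕ} (φ : Form (n + 1)) : Form n
  | ex {n : ℕ} (φ : Form (n + 1)) : Form n

/-- the power `X ^ n` of a simplicial set -/
def pw (X : SSet.{0}) (n : ℕ) : SSet.{0} where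
  obj m := Fin n → X.obj m
  map f := ↾ fun x i => X.map f (x i)
  map_id m := by
    ext x i
    simp
  map_comp f g := by
    ext x i
    simp

/-- the `i`-th projection `X ^ n → X` -/
def pr (X : SSet.{0}) {n : ℕ} (i : Fin n) : pw X n ⟶ X where
  app m := ↾ fun x => x i
  naturality m m' f := by
    ext x
    rfl

/-- the projection `X ^ (n + 1) → X ^ n` to the first `n` coordinates -/
def prn (X : SSet.{0}) (n : ℕ) : pw X (n + 1) ⟶ pw X n where
  app m := ↾ fun x i => x i.castSucc
  naturality m m' f := by
    ext x
    rfl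

section Clauses

variable {B : SSet.{0}}

/-- `E` is the object of the paths from `a` to `b`: the pullback along `(a, b) : B → X × X` of the path
space `X ^ Δ[1] → X × X`. It carries a universal homotopy from `a` to `b`, a map `E × Δ[1] → X`. -/
def IsPaths {X : SSet.{0}} (a b : B ⟶ X) (E : Over B) : Prop :=
  ∃ H : SSet.Homotopy (E.hom ≫ a) (E.hom ≫ b),
    ∀ (T : Over B) (G : SSet.Homotopy (T.hom ≫ a) (T.hom ≫ b)),
      ∃! h : T ⟶ E, (h.left ▷ (SSet.stdSimplex.obj (SimplexCategory.mk 1) : SSet.{0})) ≫ H.h = G.h

/-- `E` is a product of `A` and `A'` over `B` -/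
def IsProd (A A' E : Over B) : Prop :=
  ∃ (a : E ⟶ A) (a' : E ⟶ A'), Nonempty (IsLimit (BinaryFan.mk a a'))

/-- `E` is a coproduct of `A` and `A'` over `B` -/
def IsSum (A A' E : Over B) : Prop :=
  ∃ (a : A ⟶ E) (a' : A' ⟶ E), Nonempty (IsColimit (BinaryCofan.mk a a'))

/-- `E` is an exponential `A' ^ A` over `B`: it carries a universal map `E × A → A'` over `B`. Here
`T × A` is the pullback of `T` to `A`, composed with `A → B`. -/
def IsExp (A A' E : Over B) : Prop :=
  ∃ ev : (Over.map A.hom).obj ((Over.pullback A.hom).obj E) ⟶ A',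
    ∀ (T : Over B) (g : (Over.map A.hom).obj ((Over.pullback A.hom).obj T) ⟶ A'),
      ∃! h : T ⟶ E, (Over.map A.hom).map ((Over.pullback A.hom).map h) ≫ ev = g

/-- `E` is the value at `A` of the right adjoint of the pullback along `f : C → B`: it carries a
universal map from its pullback to `A` over `C`. -/
def IsPi {C : SSet.{0}} (f : C ⟶ B) (A : Over C) (E : Over B) : Prop :=
  ∃ ev : (Over.pullback f).obj E ⟶ A,
    ∀ (T : Over B) (g : (Over.pullback f).obj T ⟶ A),
      ∃! h : T ⟶ E, (Over.pullback f).map h ≫ ev = g

/-- `E` is the value at `A` of the left adjoint of the pullback along `f : C → B`, which is `A`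
composed with `f`. -/
def IsSigma {C : SSet.{0}} (f : C ⟶ B) (A : Over C) (E : Over B) : Prop :=
  Nonempty (E ≅ (Over.map f).obj A)

end Clauses

/-- `E` over `X ^ n` is an interpretation of the formula `φ`, when the sort is interpreted by `X`. -/
def Interp (X : SSet.{0}) : {n : ℕ} → Form n → Over (pw X n) → Prop
  | _, .top, E => Nonempty (IsTerminal E)
  | _, .bot, E => Nonempty (IsInitial E)
  | _, .eq i j, E => IsPaths (pr X i) (pr X j) E
  | _, .and φ ψ, E => ∃ A A', Interp X φ A ∧ Interp X ψ A' ∧ IsProd A A' E
  | _, .or φ ψ, E => ∃ A A', Interp X φ A ∧ Interp X ψ A' ∧ IsSum A A' E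
  | _, .imp φ ψ, E => ∃ A A', Interp X φ A ∧ Interp X ψ A' ∧ IsExp A A' E
  | n, .all φ, E => ∃ A, Interp X φ A ∧ IsPi (prn X n) A E
  | n, .ex φ, E => ∃ A, Interp X φ A ∧ IsSigma (prn X n) A E

/-- The sentence `φ` is true in `X`: its interpretation, a simplicial set, is not empty. (It is unique
up to isomorphism, see the theorem.) -/
def TrueIn (X : SSet.{0}) (φ : Form 0) : Prop :=
  ∃ E : Over (pw X 0), Interp X φ E ∧ Nonempty (E.left.obj (op (SimplexCategory.mk 0)))

end Pool.Agent.L7h74.HS
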