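import Pool.Agent.L7h74.HS.Defs

/-!
# Project HS: statements of the parts

The two Eilenberg-MacLane spaces `K(F₂, 1)` and `K(F₂, 2)` satisfy the same sentences.
-/

set_option autoImplicit false

namespace Pool.Agent.L7h74.HS

open CategoryTheory Opposite Limits MonoidalCategory

/-! ### A. Semantics -/

/-- (CMP) components: if every connected simplicial set over `Z` has a map to `E` over `B`, then `Z`
has one. (Take the components of `Z`; every simplex lies in one of them.) -/
def S_CMP : Prop :=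
  ∀ (B Z E : SSet.{0}) (a : Z ⟶ B) (p : E ⟶ B),
    (∀ (W : SSet.{0}) (_ : W.IsConnected) (f : W ⟶ Z), ∃ h : W ⟶ E, h ≫ p = f ≫ a) →
      ∃ h : Z ⟶ E, h ≫ p = a

/-- (KJ) Kripke-Joyal: a connected `Z` over `X ^ n` maps to the interpretation iff it forces the
formula. Uses `S_CMP` for `⇒` and `∀`. -/
def S_KJ : Prop :=
  ∀ (X : SSet.{0}) {n : ℕ} (φ : Form n) (E : Over (pw X n)), IsInterp X φ E →
    ∀ (Z : SSet.{0}) (_ : Z.IsConnected) (a : Z ⟶ pw X n),
      Nonempty (Over.mk a ⟶ E) ↔ Forces X φ Z a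

/-- (EXI) every formula has an interpretation (presheaf toposes are locally cartesian closed) -/
def S_EXI : Prop :=
  ∀ (X : SSet.{0}) {n : ℕ} (φ : Form n), ∃ E : Over (pw X n), IsInterp X φ E

/-- (UNI) the interpretation is unique up to isomorphism -/
def S_UNI : Prop :=
  ∀ (X : SSet.{0}) {n : ℕ} (φ : Form n) (E E' : Over (pw X n)), IsInterp X φ E → IsInterp X φ E' →
    Nonempty (E ≅ E')

/-! ### B. From maps to cocycles -/

/-- trivial Kan fibrations -/
def TrivFib {X Y : SSet.{0}} (p : X ⟶ Y) : Prop :=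
  SSet.modelCategoryQuillen.I.{0}.rlp p

/-- the cocycle of a map to `KK k`: the value at the identity of `Δ[k + 1]` -/
def ev {k : ℕ} {Z : SSet.{0}} (f : Z ⟶ KK k) : Sx Z (k + 1) → ZMod 2 :=
  fun z => (f.app _ z).1 (SSet.stdSimplex.objEquiv.symm (𝟙 _))

/-- (REP) maps to `KK k` are the normalised cocycles (Yoneda); naturality is by definition. -/
def S_REP : Prop :=
  ∀ (k : ℕ) (Z : SSet.{0}),
    (∀ f : Z ⟶ KK k, NZ (ev f)) ∧ (∀ f g : Z ⟶ KK k, ev f = ev g → f = g) ∧
      ∀ u : Sx Z (k + 1) → ZMod 2, NZ u → ∃ f : Z ⟶ KK k, ev f = u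

/-- (TRN) for a trivial fibration `π : X → KK k`, `k = 0, 1`: every cocycle comes from a map to `X`,
and two maps are homotopic iff their cocycles are cohomologous.

Homotopy `H : Z ⊗ Δ[1] → X` gives the cocycle `w` of `Z ⊗ Δ[1]`, and `β` by the prism operator
(`k = 0`: `β x = w (s_0 x, 01)`; `k = 1`: `β e = w (s_0 e, 011) + w (s_1 e, 001)`).
Conversely, given `β`, the cochain `β' (z, τ) = β z` if `τ` is the constant map `1`, and `0`
otherwise, gives the cocycle `pr^* f + δ β'` on `Z ⊗ Δ[1]`, which lifts relatively to the ends. -/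
def S_TRN : Prop :=
  ∀ (k : ℕ), k ≤ 1 → ∀ (X : SSet.{0}) (p : X ⟶ KK k), TrivFib p →
    (∀ (Z : SSet.{0}) (u : Sx Z (k + 1) → ZMod 2), NZ u → ∃ f : Z ⟶ X, ev (f ≫ p) = u) ∧
    ∀ (Z : SSet.{0}) (f g : Z ⟶ X),
      Nonempty (SSet.Homotopy f g) ↔ ∃ β, ev (f ≫ p) + ev (g ≫ p) = dl β

/-- (FOR) consequence of `S_REP`, `S_TRN`: the two notions of forcing agree. Induction on `φ`. -/
def S_FOR : Prop :=
  ∀ (k : ℕ), k ≤ 1 → ∀ (X : SSet.{0}) (p : X ⟶ KK k), TrivFib p →
    ∀ {n : ℕ} (φ : Form n) (Z : SSet.{0}) (a : Z ⟶ pw X n),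
      Forces X φ Z a ↔ CForces k φ Z (fun i => ev ((a ≫ pr X i) ≫ p))

/-! ### C. Bisimulation -/

/-- the affine relations of a family of classes: the sets `S` of even size with
`∑_{i ∈ S} a i` a coboundary -/
def Rel {Z : SSet.{0}} {k n : ℕ} (a : Fin n → (Sx Z (k + 1) → ZMod 2)) : Set (Finset (Fin n)) :=
  {S | Even S.card ∧ ∃ β, ∑ i ∈ S, a i = dl β}

/-- (KIL) a class can be killed and nothing else: `k = 0, 1`, `u` a cocycle on a connected `Z`; there is
a connected `W → Z` such that the classes that die on `W` are `0` and `u`.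

If `u` is a coboundary take `W = Z`. Otherwise `W_m` is the set of the pairs `(z, b)`, `z ∈ Z_m`,
`b` a `k`-cochain of `Δ[m]` with `δ b = z^* u`. `k = 0`: `W_0 = Z_0 × F₂`, `W → Z` is a double
covering, connected since `u` is no coboundary. `k = 1`: `W_0 = Z_0`, `W_1 = Z_1 × F₂` (only `b(01)`
is free: `b(00) = b(11) = 0` since `u` is normalised), `W` is connected since `Z` is.
If `v` dies on `W`, `v = δ β`, `β (z, ε) = β₀ z + ε β₁ z`; comparing the values of `δ β` over a fixed
`z ∈ Z_{k+1}` shows that `β₁` takes the same value on all faces of `z`; with degenerate `z` and the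
connectedness of `Z`, `β₁` is a constant `θ`, hence `v = δ β₀ + θ u`. -/
def S_KIL : Prop :=
  ∀ (k : ℕ), k ≤ 1 → ∀ (Z : SSet.{0}) (_ : Z.IsConnected) (u : Sx Z (k + 1) → ZMod 2), NZ u →
    ∃ (W : SSet.{0}) (_ : W.IsConnected) (f : W ⟶ Z), (∃ β, rs f u = dl β) ∧
      ∀ v : Sx Z (k + 1) → ZMod 2, NZ v → (∃ β, rs f v = dl β) →
        (∃ β, v = dl β) ∨ ∃ β, v + u = dl β

/-- (IND) an independent class can be added: `k = 0, 1`, `Z` connected; there are a connected
`W → Z` and a cocycle `b` on `W` such that for all cocycles `v` on `Z`: if `v` dies on `W` then `v` is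
a coboundary, and `f^* v + b` is no coboundary.

`W = Z ⊗ KK k`, `b` the tautological cocycle of `KK k`. For the first claim restrict to `Z × pt`, for
the second one to `pt × KK k`: a cocycle of a point is a coboundary, and the tautological cocycle of
`KK k` is not one: evaluate on the simplex of dimension `k + 1` with trivial boundary and value `1`. -/
def S_IND : Prop :=
  ∀ (k : ℕ), k ≤ 1 → ∀ (Z : SSet.{0}) (_ : Z.IsConnected),
    ∃ (W : SSet.{0}) (_ : W.IsConnected) (f : W ⟶ Z) (b : Sx W (k + 1) → ZMod 2), NZ b ∧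
      (∀ v : Sx Z (k + 1) → ZMod 2, NZ v → (∃ β, rs f v = dl β) → ∃ β, v = dl β) ∧
      ∀ v : Sx Z (k + 1) → ZMod 2, NZ v → ¬ ∃ β, rs f v + b = dl β

/-- (BIS) states with the same affine relations force the same formulas. Induction on `φ`, see the
plan. -/
def S_BIS : Prop :=
  ∀ (k k' : ℕ), k ≤ 1 → k' ≤ 1 → ∀ {n : ℕ} (φ : Form n) (Z : SSet.{0}) (_ : Z.IsConnected)
    (a : Fin n → (Sx Z (k + 1) → ZMod 2)) (_ : ∀ i, NZ (a i)) (Z' : SSet.{0})
    (_ : Z'.IsConnected) (a' : Fin n → (Sx Z' (k' + 1) → ZMod 2)) (_ : ∀ i, NZ (a' i)),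
    Rel a = Rel a' → CForces k φ Z a → CForces k' φ Z' a'

/-! ### D. The topological spaces -/

/-- the singular simplicial set -/
noncomputable abbrev Sg (X : Type) [TopologicalSpace X] : SSet.{0} :=
  TopCat.toSSet.obj (TopCat.of X)

/-- (TOP) topological spaces of type `K(F₂, 1)` and `K(F₂, 2)` -/
def S_TOP : Prop :=
  ∀ k : ℕ, k ≤ 1 → ∃ (X : Type) (_ : TopologicalSpace X) (p : Sg X ⟶ KK k), TrivFib p

/-- (SC0) a space of type `K(F₂, 1)` is not simply connected -/
def S_SC0 : Prop :=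
  ∀ (X : Type) [TopologicalSpace X] (p : Sg X ⟶ KK 0), TrivFib p → ¬ SimplyConnectedSpace X

/-- (SC1) a space of type `K(F₂, 2)` is simply connected -/
def S_SC1 : Prop :=
  ∀ (X : Type) [TopologicalSpace X] (p : Sg X ⟶ KK 1), TrivFib p → SimplyConnectedSpace X

end Pool.Agent.L7h74.HS
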